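import Pool.Agent.Run7.h865.LW.Fin

/-!
# MP_efea25_an, Q1: Littlewood polynomials with a zero of order `c (log n / log log n) ^ 2` at `1`

Q1 is false. In the opposite direction Boyd's upper bound is `c log ^ 2 n / log log n`, so that
it is sharp up to a factor `log log n`.

Proof idea. Let `B = ∏_{k < J} (1 - X^k)^(J - k)`, with a zero of order `m = J (J - 1) / 2` at `1`. Its
supremum on the unit circle is only `exp (J log J / 2 + J)`, since
`∑_{k<J} (J - k) cos (k t) ≥ - J / 2` (Fejér kernel); moreover `B(0) = 1`, the leading coefficient is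
`± 1` and `B(X) ∣ B(X^a)` for all `a ≥ 1`.

*Rigidity*: let `h : [0, N) → ℝ` satisfy the recurrence of `B`, with distances to the nearest integers of
energy `≤ K`. Then the sequence `z` of the nearest integers satisfies the recurrence as well, if
`N` is large compared with `(sup |B|)^4 K^2`: the recurrence of `z` fails in few windows, so it holds in a long run
of windows, and it extends from there, since the defect of `z` at the next window is by
`B(X) ∣ B(X^a)`, `a = 1, …, A`, an average of the errors along `A` disjoint windows plus one common error `≤ 1 / 2`.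

*Circle method*: for a suitable integer sequence `w` satisfying the recurrence of `B`, `∑ ε_j w_j = 0`
(`ε_j = ± 1`) implies `B ∣ ∑ ε_j X^j`. The number of such `ε` is the mean over `a` modulo `q` of
`∏_j 2 cos (2 π a w_j / q)`. The minor arcs are negligible; on the major arcs the product is nonnegative by
rigidity and since `∑ z_j` is even, as `∑_{j<N} X^j` is modulo `2` a multiple of `B` for
`N = (J - 1)! 2^ν`. The term `a = 0` is `2^N`, so that such an `ε` exists once `N ≥ J^(8 J)`.
-/

set_option autoImplicit false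

open Polynomial Finset Filter

namespace Pool.Agent.Results.MP_efea25_an.ZerosAtOne

/-- Littlewood polynomials of degree `n`: all coefficients `a_0, ..., a_n` are `1` or `-1`. -/
def IsLittlewood (n : ℕ) (p : ℝ[X]) : Prop :=
  p.natDegree = n ∧ ∀ j ≤ n, p.coeff j = 1 ∨ p.coeff j = -1

lemma alternating (k : ℕ) (hk : Odd k) : ∃ p : ℝ[X], IsLittlewood k p ∧ 1 ≤ p.rootMultiplicity 1 := by
  obtain ⟨p, hp, hm⟩ := Pool.Agent.Run7.h865.LW.poly_of_signs (k + 1) 1 (by omega)
    (fun j => (-1) ^ j) (fun j => neg_one_pow_eq_or ℤ j) (by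
      rw [pow_one, ← C_1, dvd_iff_isRoot, IsRoot.def, eval_finsetSum]
      simp only [eval_mul, eval_C, eval_pow, eval_X, one_pow, mul_one]
      rw [neg_one_geom_sum, if_pos (by simpa [Nat.even_add_one] using hk)])
  exact ⟨p, hp, hm⟩

/-- Q1 is false:
(1) there is no constant `c` such that the multiplicity of `1` as a zero of a Littlewood polynomial of
degree `n ≥ 2` is at most `c log n`;
(2) there is an absolute constant `c > 0` such that for every `n ≥ 3` there is a Littlewood polynomial of
some degree `k` with `n / 2 ≤ k ≤ n` that has a zero of order at least `c (log n / log log n) ^ 2`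
at `1`; (3) for large `n` one can take `c = 1 / 1600`. -/
theorem result :
    (¬ ∃ c : ℝ, 0 < c ∧ ∀ n : ℕ, 2 ≤ n → ∀ p : ℝ[X], IsLittlewood n p →
      (p.rootMultiplicity 1 : ℝ) ≤ c * Real.log n) ∧
    (∃ c : ℝ, 0 < c ∧ ∀ n : ℕ, 3 ≤ n → ∃ (k : ℕ) (p : ℝ[X]), n ≤ 2 * k ∧ k ≤ n ∧ IsLittlewood k p ∧
      c * (Real.log n / Real.log (Real.log n)) ^ 2 ≤ (p.rootMultiplicity 1 : ℝ)) ∧
    ∀ᶠ n : ℕ in atTop, ∃ (k : ℕ) (p : ℝ[X]), n ≤ 2 * k ∧ k ≤ n ∧ IsLittlewood k p ∧
      1 / 1600 * (Real.log n / Real.log (Real.log n)) ^ 2 ≤ (p.rootMultiplicity 1 : ℝ) := by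
  obtain ⟨n₀, hn₀⟩ := Pool.Agent.Run7.h865.LW.large
  refine ⟨?_, ?_, ?_⟩
  · rintro ⟨c, hc, H⟩
    have h1 : ∀ᶠ x : ℝ in atTop, Real.log x ^ 2 ≤ 1 / (3200 * c) * x := by
      have := (Real.isLittleO_pow_log_id_atTop (n := 2)).def (show (0 : ℝ) < 1 / (3200 * c) by positivity)
      filter_upwards [this, eventually_ge_atTop (0 : ℝ)] with x hx hx0
      simpa [abs_of_nonneg hx0] using hx
    have h2 : Tendsto (fun n : ℕ => Real.log (n : ℝ)) atTop atTop :=
      Real.tendsto_log_atTop.comp tendsto_natCast_atTop_atTop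
    have h3 := h2.eventually h1
    have h4 := h2.eventually (eventually_ge_atTop (3 : ℝ))
    obtain ⟨n, ⟨⟨ha, hb⟩, hn1⟩, hn2⟩ := (((h3.and h4).and (eventually_ge_atTop n₀)).and
      (eventually_ge_atTop 4)).exists
    obtain ⟨k, p, hk1, hk2, hp, hm⟩ := hn₀ n hn1
    have h5 := H k (by omega) p hp
    have hlog : Real.log k ≤ Real.log n := by
      apply Real.log_le_log
      · have : 0 < k := by omega
        exact_mod_cast this
      · exact_mod_cast hk2
    have hL : 0 < Real.log n := by linarith
    have hLL : 0 < Real.log (Real.log n) := Real.log_pos (by linarith)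
    have h6 : 3200 * c * Real.log n ≤ (Real.log n / Real.log (Real.log n)) ^ 2 := by
      rw [div_pow, le_div_iff₀ (by positivity)]
      calc 3200 * c * Real.log n * Real.log (Real.log n) ^ 2
          ≤ 3200 * c * Real.log n * (1 / (3200 * c) * Real.log n) := by gcongr
        _ = Real.log n ^ 2 := by field_simp
    have h7 : c * Real.log k ≤ c * Real.log n := by gcongr
    have h8 : 0 < c * Real.log n := by positivity
    nlinarith
  · set S : ℝ := ∑ n ∈ range n₀, (Real.log n / Real.log (Real.log n)) ^ 2 with hS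
    have hS0 : 0 ≤ S := Finset.sum_nonneg fun _ _ => by positivity
    refine ⟨min (1 / 1600) (1 / (1 + S)), by positivity, ?_⟩
    intro n hn
    by_cases h : n₀ ≤ n
    · obtain ⟨k, p, hk1, hk2, hp, hm⟩ := hn₀ n h
      refine ⟨k, p, hk1, hk2, hp, le_trans ?_ hm⟩
      exact mul_le_mul_of_nonneg_right (min_le_left _ _) (by positivity)
    · push Not at h
      have hk : ∃ k, Odd k ∧ n ≤ 2 * k ∧ k ≤ n := by
        rcases Nat.even_or_odd n with he | ho
        · refine ⟨n - 1, ?_, by omega, by omega⟩
          obtain ⟨t, ht⟩ := he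
          exact ⟨t - 1, by omega⟩
        · exact ⟨n, ho, by omega, le_rfl⟩
      obtain ⟨k, hodd, hk1, hk2⟩ := hk
      obtain ⟨p, hp, hm⟩ := alternating k hodd
      refine ⟨k, p, hk1, hk2, hp, ?_⟩
      have h1 : (Real.log n / Real.log (Real.log n)) ^ 2 ≤ S :=
        Finset.single_le_sum (f := fun n : ℕ => (Real.log n / Real.log (Real.log n)) ^ 2)
          (fun _ _ => by positivity) (mem_range.mpr h)
      have h2 : min (1 / 1600) (1 / (1 + S)) * (Real.log n / Real.log (Real.log n)) ^ 2 ≤ 1 := by
        calc min (1 / 1600) (1 / (1 + S)) * (Real.log n / Real.log (Real.log n)) ^ 2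
            ≤ 1 / (1 + S) * S := by
              apply mul_le_mul (min_le_right _ _) h1 (by positivity) (by positivity)
          _ ≤ 1 := by
              rw [one_div_mul_eq_div, div_le_one (by positivity)]; linarith
      refine h2.trans ?_
      exact_mod_cast hm
  · filter_upwards [eventually_ge_atTop n₀] with n hn
    exact hn₀ n hn

end Pool.Agent.Results.MP_efea25_an.ZerosAtOne
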